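import Pool.Agent.H629.TA.Stm

set_option autoImplicit false

/-! Rules for the expectations of functions of the history. -/

open Finset

namespace Pool.Agent.H726.TA.ER

open Pool.Agent.H629.TA

/-- the basic rules for `Ex` -/
def Basic (m : ℕ) (δ : ℝ) (i : ℕ) : Prop :=
    (∀ c : ℝ, Ex m δ i (fun _ => c) = c) ∧
    (∀ f g : Hist m → ℝ, Ex m δ i (fun h => f h + g h) = Ex m δ i f + Ex m δ i g) ∧
    (∀ (c : ℝ) (f : Hist m → ℝ), Ex m δ i (fun h => c * f h) = c * Ex m δ i f) ∧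
    (∀ f g : Hist m → ℝ, (∀ h, Valid m h (i + 2) → f h ≤ g h) → Ex m δ i f ≤ Ex m δ i g) ∧
    (∀ f g : Hist m → ℝ, (∀ h, Valid m h (i + 2) → f h = g h) → Ex m δ i f = Ex m δ i g)

theorem weights (hTW : S_TW) (m : ℕ) (δ : ℝ) (hδ : 0 < δ) (k : ℕ) (hk : 2 ≤ k) (h : Hist m)
    (hv : Valid m h k) : (∀ a ∈ Icc 1 k, 0 ≤ wt m δ h k a / tot m δ k) ∧
      ∑ a ∈ Icc 1 k, wt m δ h k a / tot m δ k = 1 := by
  have h1 := (hTW m k h hk hv).2.1 δ
  have hpos : ∀ a, 0 < wt m δ h k a := by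
    intro a
    have : (0 : ℝ) ≤ (deg m h k a : ℝ) := Nat.cast_nonneg _
    show 0 < (deg m h k a : ℝ) + δ
    linarith
  have htot : 0 < tot m δ k := by
    rw [← h1]
    exact Finset.sum_pos (fun a _ => hpos a) ⟨1, Finset.mem_Icc.2 ⟨le_rfl, by omega⟩⟩
  refine ⟨fun a _ => div_nonneg (hpos a).le htot.le, ?_⟩
  rw [← Finset.sum_div, h1, div_self htot.ne']

theorem step_const (hDR : S_DR) (hTW : S_TW) (m : ℕ) (δ : ℝ) (hδ : 0 < δ) (k : ℕ) (hk : 2 ≤ k)
    (h : Hist m) (hv : Valid m h k) (c : ℝ) (f : Hist m → ℝ)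
    (hf : ∀ j : Fin m → ℕ, (∀ l, j l ∈ Icc 1 k) → f (Function.update h (k + 1) j) = c) :
    step m δ k f h = c := by
  obtain ⟨_, h2⟩ := weights hTW m δ hδ k hk h hv
  obtain ⟨d1, _, _, _, d5, _⟩ := hDR m (Icc 1 k) (fun a => wt m δ h k a / tot m δ k)
  have h3 := d5 (fun j => f (Function.update h (k + 1) j)) (fun _ => c) hf
  exact h3.trans (d1 c h2)

theorem step_mono (hDR : S_DR) (hUP : S_UP) (hTW : S_TW) (m : ℕ) (δ : ℝ) (hδ : 0 < δ) (k : ℕ)
    (hk : 2 ≤ k) (h : Hist m) (hv : Valid m h k) (f g : Hist m → ℝ)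
    (hfg : ∀ h, Valid m h (k + 1) → f h ≤ g h) : step m δ k f h ≤ step m δ k g h := by
  obtain ⟨h1, _⟩ := weights hTW m δ hδ k hk h hv
  obtain ⟨_, _, _, d4, _, _⟩ := hDR m (Icc 1 k) (fun a => wt m δ h k a / tot m δ k)
  exact d4 (fun j => f (Function.update h (k + 1) j)) (fun j => g (Function.update h (k + 1) j))
    h1 fun j hj => hfg _ ((hUP m k h j hk hj).2.2.2.2.2.2 hv)

theorem step_congr (hDR : S_DR) (hUP : S_UP) (m : ℕ) (δ : ℝ) (k : ℕ)
    (hk : 2 ≤ k) (h : Hist m) (hv : Valid m h k) (f g : Hist m → ℝ)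
    (hfg : ∀ h, Valid m h (k + 1) → f h = g h) : step m δ k f h = step m δ k g h := by
  obtain ⟨_, _, _, _, d5, _⟩ := hDR m (Icc 1 k) (fun a => wt m δ h k a / tot m δ k)
  exact d5 (fun j => f (Function.update h (k + 1) j)) (fun j => g (Function.update h (k + 1) j))
    fun j hj => hfg _ ((hUP m k h j hk hj).2.2.2.2.2.2 hv)

theorem step_add (hDR : S_DR) (m : ℕ) (δ : ℝ) (k : ℕ) (h : Hist m) (f g : Hist m → ℝ) :
    step m δ k (fun h => f h + g h) h = step m δ k f h + step m δ k g h := by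
  obtain ⟨_, d2, _, _, _, _⟩ := hDR m (Icc 1 k) (fun a => wt m δ h k a / tot m δ k)
  exact d2 (fun j => f (Function.update h (k + 1) j)) (fun j => g (Function.update h (k + 1) j))

theorem step_smul (hDR : S_DR) (m : ℕ) (δ : ℝ) (k : ℕ) (h : Hist m) (c : ℝ) (f : Hist m → ℝ) :
    step m δ k (fun h => c * f h) h = c * step m δ k f h := by
  obtain ⟨_, _, d3, _, _, _⟩ := hDR m (Icc 1 k) (fun a => wt m δ h k a / tot m δ k)
  exact d3 c (fun j => f (Function.update h (k + 1) j))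

theorem basic (hDR : S_DR) (hUP : S_UP) (hTW : S_TW) (m : ℕ) (δ : ℝ) (hδ : 0 < δ) (i : ℕ) :
    Basic m δ i := by
  induction i with
  | zero =>
    have hv : Valid m (fun _ _ => 0) (0 + 2) := by
      intro i h3 h2
      omega
    exact ⟨fun _ => rfl, fun _ _ => rfl, fun _ _ => rfl, fun f g hfg => hfg _ hv,
      fun f g hfg => hfg _ hv⟩
  | succ i ih =>
    obtain ⟨b1, b2, b3, b4, b5⟩ := ih
    refine ⟨fun c => ?_, fun f g => ?_, fun c f => ?_, fun f g hfg => ?_, fun f g hfg => ?_⟩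
    · show Ex m δ i (step m δ (i + 2) (fun _ => c)) = c
      rw [b5 _ (fun _ => c) fun h hv =>
        step_const hDR hTW m δ hδ (i + 2) (by omega) h hv c _ fun _ _ => rfl]
      exact b1 c
    · show Ex m δ i (step m δ (i + 2) (fun h => f h + g h)) = _
      rw [b5 _ (fun h => step m δ (i + 2) f h + step m δ (i + 2) g h) fun h _ =>
        step_add hDR m δ (i + 2) h f g]
      exact b2 _ _
    · show Ex m δ i (step m δ (i + 2) (fun h => c * f h)) = _
      rw [b5 _ (fun h => c * step m δ (i + 2) f h) fun h _ => step_smul hDR m δ (i + 2) h c f]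
      exact b3 _ _
    · exact b4 _ _ fun h hv => step_mono hDR hUP hTW m δ hδ (i + 2) (by omega) h hv f g hfg
    · exact b5 _ _ fun h hv => step_congr hDR hUP m δ (i + 2) (by omega) h hv f g hfg

theorem t_ER : S_DR → S_UP → S_TW → S_ER := by
  intro hDR hUP hTW m δ _ hδ i
  obtain ⟨b1, b2, b3, b4, b5⟩ := basic hDR hUP hTW m δ hδ i
  refine ⟨b1, b2, b3, b4, b5, ?_, ?_, ?_⟩
  · intro f
    rw [abs_le]
    constructor
    · have h1 := b4 (fun h => (-1) * |f h|) f fun h _ => by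
        have := neg_abs_le (f h)
        linarith
      rw [b3] at h1
      linarith
    · exact b4 _ _ fun h _ => le_abs_self _
  · intro f g
    have key : ∀ t : ℝ, 0 ≤ Ex m δ i (fun h => g h ^ 2) * (t * t) +
        (-2 * Ex m δ i (fun h => f h * g h)) * t + Ex m δ i (fun h => f h ^ 2) := by
      intro t
      have h1 : (0 : ℝ) ≤ Ex m δ i (fun h => (f h - t * g h) ^ 2) := by
        have := b4 (fun _ => (0 : ℝ)) (fun h => (f h - t * g h) ^ 2) fun h _ => sq_nonneg _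
        rwa [b1] at this
      have h2 : (fun h : Hist m => (f h - t * g h) ^ 2) =
          fun h => f h ^ 2 + ((-2 * t) * (f h * g h) + t ^ 2 * g h ^ 2) := by
        funext h
        ring
      rw [h2, b2 (fun h => f h ^ 2) (fun h => (-2 * t) * (f h * g h) + t ^ 2 * g h ^ 2),
        b2 (fun h => (-2 * t) * (f h * g h)) (fun h => t ^ 2 * g h ^ 2),
        b3 (-2 * t) (fun h => f h * g h), b3 (t ^ 2) (fun h => g h ^ 2)] at h1
      linarith
    have h3 := discrim_le_zero key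
    unfold discrim at h3
    linarith
  · intro f g hfg
    show Ex m δ i (step m δ (i + 2) f) = Ex m δ i g
    exact b5 _ _ fun h hv => step_const hDR hTW m δ hδ (i + 2) (by omega) h hv (g h) f
      fun j hj => hfg h j hj

end Pool.Agent.H726.TA.ER
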